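import Pool.Agent.H13.LN.Targets

/-!
# Row HRK of the board lnt_modules: rotation in time
-/

set_option autoImplicit false

open Finset

namespace Pool.Agent.H31.LNT

open Pool.Agent.H59.LIN Pool.Agent.H13.LN

/-- a word can be cut after a given number of double points -/
lemma cut {n : ℕ} (f : Wd n) : ∀ κ : ℕ, κ ≤ nd f → ∃ u v : Wd n, f = u ++ v ∧ nd u = κ := by
  induction f with
  | nil =>
    intro κ hκ
    exact ⟨[], [], rfl, (Nat.le_zero.mp hκ).symm⟩
  | cons x f ih =>
    intro κ hκ
    by_cases h0 : κ = 0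
    · exact ⟨[], x :: f, rfl, by rw [h0]; rfl⟩
    · by_cases hx : x.2 = true
      · have h1 : nd (x :: f) = nd f + 1 := by
          unfold nd
          rw [List.countP_cons_of_pos hx]
        obtain ⟨u, v, huv, hu⟩ := ih (κ - 1) (by omega)
        refine ⟨x :: u, v, by rw [huv]; rfl, ?_⟩
        have h2 : nd (x :: u) = nd u + 1 := by
          unfold nd
          rw [List.countP_cons_of_pos hx]
        omega
      · have h1 : nd (x :: f) = nd f := by
          unfold nd
          rw [List.countP_cons_of_neg hx]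
        obtain ⟨u, v, huv, hu⟩ := ih κ (by omega)
        refine ⟨x :: u, v, by rw [huv]; rfl, ?_⟩
        have h2 : nd (x :: u) = nd u := by
          unfold nd
          rw [List.countP_cons_of_neg hx]
        omega

theorem hrk (hRUN : T_RUN) (hC2 : T_C2) (hBL2 : T_BL2) (hBLV : T_BLV) (hEVA : T_EVA) : T_HRK := by
  intro B _ d g H hGH κ L hL hκ
  have hLpos : 0 < L.length := List.length_pos_iff.mpr hL.ne
  obtain ⟨n, hn⟩ : ∃ n, L.length = n + 1 := ⟨L.length - 1, by omega⟩
  obtain ⟨f, hf1, hf2, hf3⟩ := hC2 d n L (Equiv.refl _) hL hn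
  obtain ⟨hK, hB⟩ := hBL2 n L (Equiv.refl _) f hn hf2 hf3
  have hB' : blk f 0 = L := hB
  obtain ⟨u, v, rfl, hu⟩ := cut f κ (by rw [hf1]; exact hκ)
  have hnd : nd u + nd v = d := by
    rw [← hf1]
    unfold nd
    rw [List.countP_append]
  have hK' : Knot (v ++ u) := hRUN.2.2.2.1 n Bool u v hK
  have hnd' : nd (v ++ u) = d := by
    rw [← hnd]
    unfold nd
    rw [List.countP_append, Nat.add_comm]
  have hg : g n (u ++ v) = g n (v ++ u) := hGH.1.conj n u v hK hf1
  have h1 : H (blk (v ++ u) (run u 0)) = g n (v ++ u) := hGH.2 n (v ++ u) (run u 0) hK' hnd'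
  have h2 : H (blk (u ++ v) 0) = g n (u ++ v) := hGH.2 n (u ++ v) 0 hK hf1
  rw [hB'] at h2
  rw [h2, hg, ← h1]
  congr 1
  have hper : (run (u ++ v))^[n + 1] (0 : Fin (n + 1)) = 0 := (hBLV n (u ++ v) 0 hK).2.2.2.2
  have hsemi : Function.Semiconj (run u) (run (u ++ v)) (run (v ++ u)) := by
    intro q
    rw [hRUN.1, hRUN.1]
  have hit : ∀ j : ℕ, (run (v ++ u))^[j] (run u 0) = run u ((run (u ++ v))^[j] 0) := by
    intro j
    exact ((hsemi.iterate_right j) 0).symm
  have hLj : ∀ (j : ℕ) (hj : j < L.length), L[j] = ev 0 (u ++ v) ((run (u ++ v))^[j] 0) := by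
    intro j hj
    have h3 : ∀ (M : List (List ℕ)) (_ : M = L) (hj' : j < M.length), L[j] = M[j] := by
      intro M hM hj'
      subst hM
      rfl
    rw [h3 (blk (u ++ v) 0) hB' (by rw [hB']; exact hj)]
    unfold blk
    rw [List.getElem_ofFn]
  have hev : ∀ q : Fin (n + 1), ev 0 (u ++ v) q = ev 0 u q ++ (ev 0 v (run u q)).map (· + κ) := by
    intro q
    rw [hEVA.1, hu, hEVA.2.1 n 0 κ v (run u q)]
  have hlow : ∀ q : Fin (n + 1), ∀ m ∈ ev 0 u q, m < κ := by
    intro q m hm
    have := ((hEVA.2.2 n 0 u q).2 m hm).2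
    omega
  have hf_hi : ∀ q : Fin (n + 1),
      (((ev 0 (u ++ v) q).filter (κ ≤ ·)).map (· - κ)) = ev 0 v (run u q) := by
    intro q
    rw [hev, List.filter_append]
    have e1 : (ev 0 u q).filter (κ ≤ ·) = [] := by
      rw [List.filter_eq_nil_iff]
      intro m hm
      have := hlow q m hm
      simp only [decide_eq_true_eq]
      omega
    have e2 : ((ev 0 v (run u q)).map (· + κ)).filter (κ ≤ ·) = (ev 0 v (run u q)).map (· + κ) := by
      rw [List.filter_eq_self]
      intro m hm
      obtain ⟨m', _, rfl⟩ := List.mem_map.mp hm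
      simp
    rw [e1, e2, List.nil_append, List.map_map]
    have e3 : ((· - κ) ∘ (· + κ) : ℕ → ℕ) = id := by
      funext m
      simp
    rw [e3, List.map_id]
  have hf_lo : ∀ q : Fin (n + 1), (ev 0 (u ++ v) q).filter (· < κ) = ev 0 u q := by
    intro q
    rw [hev, List.filter_append]
    have e1 : (ev 0 u q).filter (· < κ) = ev 0 u q := by
      rw [List.filter_eq_self]
      intro m hm
      simpa using hlow q m hm
    have e2 : ((ev 0 v (run u q)).map (· + κ)).filter (· < κ) = [] := by
      rw [List.filter_eq_nil_iff]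
      intro m hm
      obtain ⟨m', _, rfl⟩ := List.mem_map.mp hm
      simp
    rw [e1, e2, List.append_nil]
  have hdk : nd v = d - κ := by omega
  apply List.ext_getElem
  · unfold Rk blk
    rw [List.length_zipWith, List.length_rotate, List.length_ofFn, hn, Nat.min_self]
  · intro j hj1 hj2
    have hjn : j < n + 1 := by
      unfold blk at hj2
      rw [List.length_ofFn] at hj2
      exact hj2
    have hjL : j < L.length := by rw [hn]; exact hjn
    have hlhs : (Rk d κ L)[j] = ((L[j].filter (κ ≤ ·)).map (· - κ) ++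
        (((L.rotate 1)[j]'(by rw [List.length_rotate]; exact hjL)).filter (· < κ)).map
          (· + (d - κ))) := List.getElem_zipWith
    rw [hlhs]
    have hrot : (L.rotate 1)[j]'(by rw [List.length_rotate]; exact hjL) =
        ev 0 (u ++ v) ((run (u ++ v))^[j + 1] 0) := by
      rw [List.getElem_rotate]
      rw [hLj]
      congr 1
      by_cases hj : j + 1 < L.length
      · rw [Nat.mod_eq_of_lt hj]
      · have hj' : j + 1 = n + 1 := by omega
        rw [hj', hn, Nat.mod_self, hper]
        rfl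
    rw [hrot, hLj j hjL, hf_hi, hf_lo]
    have hrhs : (blk (v ++ u) (run u 0))[j] =
        ev 0 (v ++ u) ((run (v ++ u))^[j] (run u 0)) := List.getElem_ofFn _
    rw [hrhs, hit, hEVA.1, hdk, hEVA.2.1 n 0 (d - κ) u]
    congr 3
    rw [Function.iterate_succ_apply', hRUN.1]

end Pool.Agent.H31.LNT
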