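import Pool.Agent.H13.LN.Targets

/-!
# Row LFT of the board lnt_modules
-/

set_option autoImplicit false

open Finset

namespace Pool.Agent.H31.LNT

open Pool.Agent.H59.LIN Pool.Agent.H13.LN

theorem lft_row (hRUN : T_RUN) (hCUB : T_CUB) (hRES : T_RES) : T_LFT := by
  intro p a d v hp hv s
  obtain ⟨M, hM⟩ := hCUB p a d hp s
  refine ⟨M, ?_⟩
  intro n w hK hd
  obtain ⟨r, q, hr, hq, hext⟩ := hRES n w
  have h0 : ∑ ε : Finset (Fin (dbl w)), (-1) ^ (dbl w - ε.card) * s (v n (r ε)) = 0 := by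
    refine hM (dbl w) hd (fun ε => v n (r ε)) ?_
    intro δ hδ
    have h1 := (hext (ZMod (p ^ a)) (v n)).2 δ
    have hKq : Knot (q δ) := hRUN.2.2.2.2.1 n (Option Bool) (Option Bool) w (q δ) (hq δ).1.symm hK
    rw [hv n (q δ) hKq (by rw [(hq δ).2]; exact hδ)] at h1
    rw [eq_comm] at h1
    rw [← h1]
    refine Finset.sum_congr rfl fun ε _ => ?_
    rw [zsmul_eq_mul]
    push_cast
    rfl
  show ext (fun w => s (v n w)) [] w = 0
  rw [(hext (ZMod (p ^ (a + 1))) (fun w => s (v n w))).1, ← h0]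
  refine Finset.sum_congr rfl fun ε _ => ?_
  rw [zsmul_eq_mul]
  push_cast
  rfl

end Pool.Agent.H31.LNT
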