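import Pool.Agent.H13.LN.Targets

/-!
# Row SUR of the board lnt_modules
-/

set_option autoImplicit false

open Finset

namespace Pool.Agent.H31.LNT

open Pool.Agent.H59.LIN Pool.Agent.H13.LN

theorem sur (hRUN : T_RUN) : T_SUR := by
  intro n ρ
  have h : ρ ∈ Submonoid.closure (Set.range fun i : Fin n => Equiv.swap i.castSucc i.succ) := by
    rw [Equiv.Perm.mclosure_swap_castSucc_succ]
    exact Submonoid.mem_top ρ
  induction h using Submonoid.closure_induction with
  | mem x hx =>
    obtain ⟨i, rfl⟩ := hx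
    exact ⟨[(i, false)], rfl, fun p => rfl⟩
  | one => exact ⟨[], rfl, fun p => rfl⟩
  | mul x y _ _ hx hy =>
    obtain ⟨r, hr, hr'⟩ := hx
    obtain ⟨s, hs, hs'⟩ := hy
    refine ⟨s ++ r, ?_, fun p => ?_⟩
    · unfold nd at *
      rw [List.countP_append, hr, hs]
    · rw [hRUN.1 n Bool s r p, hs', hr']
      rfl

end Pool.Agent.H31.LNT
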