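import Pool.Agent.H13.LN.Targets

/-!
# Row REA of the board lnt_modules
-/

set_option autoImplicit false

open Finset

namespace Pool.Agent.H31.LNT

open Pool.Agent.H59.LIN Pool.Agent.H13.LN

/-- the flattening of a list of singletons -/
lemma flatten_single (l : List ℕ) : (l.map (fun k => [k])).flatten = l := by
  induction l with
  | nil => rfl
  | cons a l ih => rw [List.map_cons, List.flatten_cons, ih]; rfl

/-- the number of letters -/
lemma dedup_len (d : ℕ) (l : List ℕ) (h : Gw d l) : l.dedup.length = d := by
  have h1 : l.length = ∑ a ∈ l.toFinset, l.count a := (List.sum_toFinset_count_eq_length l).symm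
  have h2 : ∑ a ∈ l.toFinset, l.count a = ∑ _a ∈ l.toFinset, 2 :=
    Finset.sum_congr rfl fun a ha => h.2 a (List.mem_toFinset.mp ha)
  rw [h2, Finset.sum_const, smul_eq_mul, h.1, List.card_toFinset] at h1
  omega

theorem rea (hC2 : T_C2) (hBL2 : T_BL2) (hGAU : T_GAU) (hRUN : T_RUN) : T_REA := by
  intro d l hl
  have hlen := dedup_len d l hl
  have hinj : ∀ a ∈ l, ∀ b ∈ l, l.dedup.idxOf a = l.dedup.idxOf b → a = b := by
    intro a ha b _ hab
    exact (List.idxOf_inj (List.mem_dedup.mpr ha)).mp hab
  have hcount : ∀ k, (l.map (fun a => l.dedup.idxOf a)).count k = if k < d then 2 else 0 := by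
    intro k
    by_cases hk : k < d
    · rw [if_pos hk]
      have hk' : k < l.dedup.length := by rw [hlen]; exact hk
      have hmem : l.dedup[k] ∈ l := List.mem_dedup.mp (List.getElem_mem hk')
      have hidx : l.dedup.idxOf l.dedup[k] = k := (List.nodup_dedup l).idxOf_getElem k hk'
      rw [← hl.2 _ hmem, List.count, List.countP_map, List.count]
      refine List.countP_congr fun a ha => ?_
      simp only [Function.comp, beq_iff_eq]
      constructor
      · intro h
        exact hinj a ha _ hmem (by rw [h, hidx])
      · intro h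
        rw [h, hidx]
    · rw [if_neg hk, List.count_eq_zero]
      intro h
      obtain ⟨a, ha, rfl⟩ := List.mem_map.mp h
      have := List.idxOf_lt_length_iff.mpr (List.mem_dedup.mpr ha)
      omega
  let L : List (List ℕ) := [] :: (l.map (fun a => l.dedup.idxOf a)).map (fun k => [k])
  have hLf : L.flatten = l.map (fun a => l.dedup.idxOf a) := by
    show [] ++ ((l.map (fun a => l.dedup.idxOf a)).map (fun k => [k])).flatten = _
    rw [List.nil_append, flatten_single]
  have hVL : VL d L := by
    refine ⟨by simp [L], ?_, ?_⟩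
    · intro b hb
      rcases List.mem_cons.mp hb with h | h
      · rw [h]; exact List.Pairwise.nil
      · obtain ⟨k, _, rfl⟩ := List.mem_map.mp h
        exact List.pairwise_singleton _ _
    · intro k
      rw [hLf]
      exact hcount k
  have hLl : L.length = l.length + 1 := by simp [L]
  obtain ⟨f, hf1, hf2, hf3⟩ := hC2 d l.length L (Equiv.refl _) hVL hLl
  obtain ⟨hK, hB⟩ := hBL2 l.length L (Equiv.refl _) f hLl hf2 hf3
  obtain ⟨hr, hd, hflt⟩ := hRUN.2.2.2.2.2.2.2.1 l.length f
  have hK' : Knot (lft f) := by
    intro p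
    rw [hr]
    exact hK p
  obtain ⟨_, _, θ, hθ, hg⟩ := hGAU l.length (lft f) hK'
  refine ⟨l.length, lft f, fun a => θ (l.dedup.idxOf a), hK', by rw [hd, hf1], ?_, ?_⟩
  · intro a ha b hb hab
    exact hinj a ha b hb (hθ.injective hab)
  · rw [hg, hflt]
    have hB' : blk f 0 = L := hB
    rw [hB', hLf, List.map_map]
    rfl

end Pool.Agent.H31.LNT
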